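import Mathlib
import Pool.Agent.W953.KC.Par

/-!
# Set Cover: matrices, circuits of size `2 ^ ((1 - ε) n) * poly`
-/

set_option autoImplicit false

namespace Pool.Agent.W953.CV

open Pool.Agent.H540R2 Pool.Agent.H540R2.Circuit Pool.Agent.W953.NW Pool.Agent.W953.KC

/-- Some at most `k` rows of the matrix `x` (with `M` rows and `n` columns) cover all columns. -/
def Cover {M n : ℕ} (k : ℕ) (x : Fin (M * n) → Bool) : Prop :=
  ∃ F : Finset (Fin M), F.card ≤ k ∧ ∀ j : Fin n, ∃ i ∈ F, x (finProdFinEquiv (i, j)) = true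

/-- the number of ones -/
def ones {m : ℕ} (x : Fin m → Bool) : ℕ := (Finset.univ.filter (fun i => x i = true)).card

/-- the bound for the size -/
noncomputable def bound (ε : ℝ) (A n M : ℕ) : ℝ :=
  2 ^ ((1 - ε) * n) * ((M + n + 2 : ℕ) : ℝ) ^ A

/-- Set Cover for matrices with `n` columns and `M` rows has circuits with
`2 ^ ((1 - ε) * n) * (M + n + 2) ^ A` gates: the nonuniform negation of the Set Cover
Conjecture. -/
def Fast : Prop :=
  ∃ (ε : ℝ) (A : ℕ), 0 < ε ∧ ε ≤ 1 ∧ ∀ n M k : ℕ, ∃ C : Circuit (M * n),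
    (C.size : ℝ) ≤ bound ε A n M ∧ ∀ x, (C.eval x = true ↔ Cover k x)

/-- There are such circuits with at most `t n M` NOT gates for the matrices with at least `a` and
less than `a + W n M` ones, for all `a`. -/
def FastOn (t W : ℕ → ℕ → ℕ) : Prop :=
  ∃ (ε : ℝ) (A : ℕ), 0 < ε ∧ ε ≤ 1 ∧ ∀ n M k a : ℕ, ∃ C : Circuit (M * n),
    C.nots ≤ t n M ∧ (C.size : ℝ) ≤ bound ε A n M ∧
      ∀ x, a ≤ ones x → ones x < a + W n M → (C.eval x = true ↔ Cover k x)

lemma cover_mono {M n : ℕ} (k : ℕ) (x y : Fin (M * n) → Bool) (h : ∀ i, x i ≤ y i)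
    (hx : Cover k x) : Cover k y := by
  obtain ⟨F, h1, h2⟩ := hx
  refine ⟨F, h1, fun j => ?_⟩
  obtain ⟨i, hi, hij⟩ := h2 j
  have := h (finProdFinEquiv (i, j))
  rw [hij] at this
  exact ⟨i, hi, Bool.eq_true_of_true_le this⟩

lemma bound_step {ε : ℝ} (hε : ε ≤ 1) (A K n M s : ℕ) (h : (s : ℝ) ≤ bound ε A n M) :
    ((2 ^ 21 * (M * n + 1) ^ (K + 14) * (s + 1) : ℕ) : ℝ) ≤
      bound ε (A + 2 * (K + 14) + 22) n M := by
  unfold bound at h ⊢
  obtain ⟨B, hB⟩ : ∃ B : ℝ, B = ((M + n + 2 : ℕ) : ℝ) := ⟨_, rfl⟩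
  obtain ⟨E, hE⟩ : ∃ E : ℝ, E = 2 ^ ((1 - ε) * n) := ⟨_, rfl⟩
  rw [← hB, ← hE] at h ⊢
  have hB2 : 2 ≤ B := by
    rw [hB]
    push_cast
    have h1 : (0 : ℝ) ≤ M := Nat.cast_nonneg _
    have h2 : (0 : ℝ) ≤ n := Nat.cast_nonneg _
    linarith
  have hE1 : 1 ≤ E := by
    rw [hE]
    exact Real.one_le_rpow (by norm_num) (mul_nonneg (by linarith) (Nat.cast_nonneg _))
  have h1 : ((M * n + 1 : ℕ) : ℝ) ≤ B ^ 2 := by
    rw [hB]
    have : M * n + 1 ≤ (M + n + 2) ^ 2 := by nlinarith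
    exact_mod_cast this
  have h2 : (2097152 : ℝ) ≤ B ^ 21 := by
    have := pow_le_pow_left₀ (by norm_num) hB2 21
    norm_num at this
    exact this
  have hBA : 1 ≤ B ^ A := one_le_pow₀ (by linarith)
  have h3 : (s : ℝ) + 1 ≤ E * B ^ A * B := by
    have h4 : 1 ≤ E * B ^ A := by nlinarith
    have h5 : E * B ^ A * 2 ≤ E * B ^ A * B := by
      apply mul_le_mul_of_nonneg_left hB2
      linarith
    linarith
  push_cast at h1 ⊢
  calc (2097152 : ℝ) * (M * n + 1) ^ (K + 14) * (s + 1)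
      ≤ B ^ 21 * (B ^ 2) ^ (K + 14) * (E * B ^ A * B) := by
        gcongr
    _ = E * B ^ (A + 2 * (K + 14) + 22) := by
        rw [← pow_mul]
        ring

theorem fast_iff (K : ℕ) (t W : ℕ → ℕ → ℕ) (hW : ∀ n M, 1 ≤ W n M ∧ W n M ≤ K * 2 ^ t n M) :
    FastOn t W ↔ Fast := by
  constructor
  · rintro ⟨ε, A, h1, h2, h⟩
    refine ⟨ε, A + 2 * (0 + 14) + 22, h1, h2, fun n M k => ?_⟩
    have h0 : 0 ≤ bound ε A n M := by
      unfold bound
      positivity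
    obtain ⟨C, c1, c2⟩ := prop_back (P := fun x : Fin (M * n) → Bool => Cover k x)
      (A := ⌊bound ε A n M⌋₊) (fun a => by
        obtain ⟨C, d1, d2, d3⟩ := h n M k a
        refine ⟨C, Nat.le_floor d2, fun x hx => d3 x hx.ge ?_⟩
        have := (hW n M).1
        have hx' : ones x = a := hx
        omega)
    refine ⟨C, ?_, c2⟩
    refine le_trans ?_ (bound_step h2 A 0 n M _ (Nat.floor_le h0))
    exact_mod_cast c1
  · rintro ⟨ε, A, h1, h2, h⟩
    refine ⟨ε, A + 2 * (K + 14) + 22, h1, h2, fun n M k a => ?_⟩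
    obtain ⟨C, c1, c2⟩ := h n M k
    obtain ⟨C', d1, d2, d3⟩ := prop_windows (P := fun x : Fin (M * n) → Bool => Cover k x)
      (cover_mono k) C c2 a (W n M) K (t n M) (hW n M).1 (hW n M).2
    refine ⟨C', d1, ?_, d3⟩
    refine le_trans ?_ (bound_step h2 A K n M _ c1)
    exact_mod_cast d2

end Pool.Agent.W953.CV
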