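import Mathlib
import Pool.Agent.W953.CV.Defs
import Pool.Agent.W953.KC.NMc
import Pool.Agent.W953.KC.Rand
import Pool.Agent.Results.MP_8fffab_lc.FewNonMonotoneGates

/-!
# Set Cover on wide windows
-/

set_option autoImplicit false

namespace Pool.Agent.W953.CV

open Filter Pool.Agent.H540R2 Pool.Agent.H540R2.Circuit Pool.Agent.W953.NW Pool.Agent.W953.KC
open Pool.Agent.Results.MP_8fffab_lc.FewNonMonotoneGates (Small HasCover)

section Emb

variable {δ : ℝ} {n M N a : ℕ} (e : Small δ n ≃ Fin N)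

open Classical in
/-- the substitution for one entry -/
noncomputable def ent (e : Small δ n ≃ Fin N) (a : ℕ) (p : Fin M × Fin (n + 1)) :
    Small δ n ⊕ Bool :=
  if h : p.1.val < N then
    (if p.2 = Fin.last n ∨ ∃ j ∈ (e.symm ⟨p.1.val, h⟩).1, p.2 = Fin.castSucc j then
      .inl (e.symm ⟨p.1.val, h⟩) else .inr false)
  else .inr (decide (p.1.val < N + a ∧ p.2 = Fin.last n))

/-- the substitution -/
noncomputable def sub (e : Small δ n ≃ Fin N) (a : ℕ) (z : Fin (M * (n + 1))) :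
    Small δ n ⊕ Bool := ent e a (finProdFinEquiv.symm z)

lemma sub_pair (i : Fin M) (j : Fin (n + 1)) :
    sub e a (finProdFinEquiv (i, j)) = ent e a (i, j) := by
  unfold sub
  rw [Equiv.symm_apply_apply]

/-- entries in the first rows -/
lemma entry_small (y : Small δ n → Bool) (i : Fin M) (h : i.val < N) (j : Fin (n + 1)) :
    sx (sub e a) y (finProdFinEquiv (i, j)) = true ↔
      y (e.symm ⟨i.val, h⟩) = true ∧
        (j = Fin.last n ∨ ∃ j' ∈ (e.symm ⟨i.val, h⟩).1, j = Fin.castSucc j') := by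
  unfold sx
  rw [sub_pair]
  unfold ent
  rw [dif_pos h]
  split_ifs with h1
  · show y _ = true ↔ _
    exact ⟨fun h2 => ⟨h2, h1⟩, fun h2 => h2.1⟩
  · show false = true ↔ _
    constructor
    · intro h2
      exact absurd h2 (by simp)
    · intro h2
      exact absurd h2.2 h1

/-- entries in the other rows -/
lemma entry_big (y : Small δ n → Bool) (i : Fin M) (h : ¬ i.val < N) (j : Fin (n + 1)) :
    sx (sub e a) y (finProdFinEquiv (i, j)) = true ↔ i.val < N + a ∧ j = Fin.last n := by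
  unfold sx
  rw [sub_pair]
  unfold ent
  rw [dif_neg h]
  show decide _ = true ↔ _
  rw [decide_eq_true_iff]

theorem cover_iff (hn : 1 ≤ n) (hM : N ≤ M) (k : ℕ) (y : Small δ n → Bool) :
    Cover k (sx (sub (M := M) e a) y) ↔ HasCover k y := by
  classical
  constructor
  · rintro ⟨F, h1, h2⟩
    refine ⟨Finset.univ.filter (fun B => y B = true ∧ ∃ i ∈ F, i.val = (e B).val), ?_, ?_, ?_⟩
    · refine le_trans (Finset.card_le_card_of_injOn (fun B => Fin.castLE hM (e B)) ?_ ?_) h1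
      · intro B hB
        rw [Finset.mem_coe, Finset.mem_filter] at hB
        obtain ⟨i, hi, hiB⟩ := hB.2.2
        have : Fin.castLE hM (e B) = i := Fin.ext hiB.symm
        show Fin.castLE hM (e B) ∈ F
        rw [this]
        exact hi
      · intro B _ B' _ h
        exact e.injective (Fin.castLE_injective hM h)
    · intro B hB
      exact (Finset.mem_filter.1 hB).2.1
    · intro u
      obtain ⟨i, hi, hij⟩ := h2 (Fin.castSucc u)
      by_cases h : i.val < N
      · rw [entry_small e y i h] at hij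
        refine ⟨e.symm ⟨i.val, h⟩, ?_, ?_⟩
        · rw [Finset.mem_filter]
          refine ⟨Finset.mem_univ _, hij.1, i, hi, ?_⟩
          rw [Equiv.apply_symm_apply]
        · rcases hij.2 with h3 | ⟨j', hj', h3⟩
          · exact absurd h3 (Fin.castSucc_lt_last u).ne
          · rw [Fin.castSucc_injective _ h3]
            exact hj'
      · rw [entry_big e y i h] at hij
        exact absurd hij.2 (Fin.castSucc_lt_last u).ne
  · rintro ⟨F, h1, h2, h3⟩
    refine ⟨F.image (fun B => Fin.castLE hM (e B)), Finset.card_image_le.trans h1, ?_⟩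
    have key : ∀ B ∈ F, ∀ j : Fin (n + 1), (j = Fin.last n ∨ ∃ j' ∈ B.1, j = Fin.castSucc j') →
        sx (sub (M := M) e a) y (finProdFinEquiv (Fin.castLE hM (e B), j)) = true := by
      intro B hB j hj
      have h : (Fin.castLE hM (e B)).val < N := (e B).isLt
      rw [entry_small e y _ h]
      have hB' : e.symm ⟨(Fin.castLE hM (e B)).val, h⟩ = B := by
        have : (⟨(Fin.castLE hM (e B)).val, h⟩ : Fin N) = e B := rfl
        rw [this, Equiv.symm_apply_apply]
      rw [hB']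
      exact ⟨h2 B hB, hj⟩
    intro j
    rcases Fin.eq_castSucc_or_eq_last j with ⟨j', rfl⟩ | rfl
    · obtain ⟨B, hB, hj⟩ := h3 j'
      exact ⟨_, Finset.mem_image_of_mem _ hB, key B hB _ (Or.inr ⟨j', hj, rfl⟩)⟩
    · obtain ⟨B, hB, _⟩ := h3 ⟨0, hn⟩
      exact ⟨_, Finset.mem_image_of_mem _ hB, key B hB _ (Or.inl rfl)⟩

theorem ones_bounds (hM : N + a ≤ M) (y : Small δ n → Bool) :
    a ≤ ones (sx (sub (M := M) e a) y) ∧
      ones (sx (sub (M := M) e a) y) ≤ a + N * (n + 1) := by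
  classical
  constructor
  · have h1 : (Finset.univ : Finset (Fin a)).card ≤ ones (sx (sub (M := M) e a) y) := by
      refine Finset.card_le_card_of_injOn (fun i : Fin a => finProdFinEquiv
        ((⟨N + i.val, by have := i.isLt; omega⟩ : Fin M), Fin.last n)) ?_ ?_
      · intro i _
        simp only [Finset.coe_filter, Finset.mem_univ, true_and, Set.mem_ofPred_eq]
        rw [entry_big e y _ (by show ¬ N + i.val < N; omega)]
        exact ⟨by show N + i.val < N + a; have := i.isLt; omega, rfl⟩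
      · intro i _ i' _ h
        have h2 := finProdFinEquiv.injective h
        have h3 := congrArg (fun p : Fin M × Fin (n + 1) => p.1.val) h2
        simp only at h3
        exact Fin.ext (by omega)
    simpa using h1
  · have hsub : Finset.univ.filter (fun z => sx (sub (M := M) e a) y z = true) ⊆
        (Finset.univ : Finset (Fin N × Fin (n + 1))).image (fun p => finProdFinEquiv
          (Fin.castLE (by omega : N ≤ M) p.1, p.2)) ∪
        (Finset.univ : Finset (Fin a)).image (fun i => finProdFinEquiv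
          ((⟨N + i.val, by have := i.isLt; omega⟩ : Fin M), Fin.last n)) := by
      intro z hz
      rw [Finset.mem_filter] at hz
      obtain ⟨⟨i, j⟩, rfl⟩ := finProdFinEquiv.surjective z
      rw [Finset.mem_union, Finset.mem_image, Finset.mem_image]
      by_cases h : i.val < N
      · left
        exact ⟨(⟨i.val, h⟩, j), Finset.mem_univ _, rfl⟩
      · right
        obtain ⟨h2, h3⟩ := (entry_big e y i h j).1 hz.2
        refine ⟨⟨i.val - N, by omega⟩, Finset.mem_univ _, ?_⟩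
        refine congrArg finProdFinEquiv (Prod.ext (Fin.ext ?_) h3.symm)
        show N + (i.val - N) = i.val
        omega
    have h1 := Finset.card_le_card hsub
    refine h1.trans ((Finset.card_union_le _ _).trans ?_)
    have h2 : ((Finset.univ : Finset (Fin N × Fin (n + 1))).image (fun p => finProdFinEquiv
          (Fin.castLE (by omega : N ≤ M) p.1, p.2))).card ≤ N * (n + 1) := by
      refine Finset.card_image_le.trans ?_
      simp
    have h3 : ((Finset.univ : Finset (Fin a)).image (fun i => finProdFinEquiv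
          ((⟨N + i.val, by have := i.isLt; omega⟩ : Fin M), Fin.last n))).card ≤ a := by
      refine Finset.card_image_le.trans ?_
      simp
    omega

end Emb

/-- a power of `n` is small -/
lemma ev_poly (C j : ℕ) {η : ℝ} (hη : 0 < η) :
    ∀ᶠ n : ℕ in atTop, ((C * (n + 1) ^ j : ℕ) : ℝ) ≤ 2 ^ (η * n) := by
  have h1 : Tendsto (fun x : ℝ => x ^ (j : ℝ) * Real.exp (-(η * Real.log 2) * x)) atTop
      (nhds 0) :=
    tendsto_rpow_mul_exp_neg_mul_atTop_nhds_zero (j : ℝ) (η * Real.log 2)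
      (mul_pos hη (Real.log_pos (by norm_num)))
  have h2 := h1.comp tendsto_natCast_atTop_atTop
  have hpos : (0 : ℝ) < 1 / (C * 2 ^ j + 1) := by positivity
  filter_upwards [h2.eventually (gt_mem_nhds hpos), eventually_ge_atTop 1] with n hn hn1
  have hn0 : (1 : ℝ) ≤ n := by exact_mod_cast hn1
  simp only [Function.comp] at hn
  have h3 : (2 : ℝ) ^ (η * n) = Real.exp (η * Real.log 2 * n) := by
    rw [Real.rpow_def_of_pos (by norm_num)]
    congr 1
    ring
  have h4 : Real.exp (-(η * Real.log 2) * n) * Real.exp (η * Real.log 2 * n) = 1 := by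
    rw [← Real.exp_add]
    rw [show -(η * Real.log 2) * (n : ℝ) + η * Real.log 2 * n = 0 by ring, Real.exp_zero]
  rw [h3]
  rw [Real.rpow_natCast] at hn
  set X := Real.exp (η * Real.log 2 * n) with hX
  have hX0 : 0 < X := Real.exp_pos _
  have h5 : (n : ℝ) ^ j < 1 / (C * 2 ^ j + 1) * X := by
    calc (n : ℝ) ^ j = (n : ℝ) ^ j * (Real.exp (-(η * Real.log 2) * n) * X) := by
          rw [h4, mul_one]
      _ = (n : ℝ) ^ j * Real.exp (-(η * Real.log 2) * n) * X := by ring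
      _ < 1 / (C * 2 ^ j + 1) * X := mul_lt_mul_of_pos_right hn hX0
  have h6 : ((n : ℝ) + 1) ^ j ≤ (2 * n) ^ j :=
    pow_le_pow_left₀ (by linarith) (by linarith) j
  have hC : (0 : ℝ) ≤ C := Nat.cast_nonneg _
  push_cast
  calc (C : ℝ) * (n + 1) ^ j ≤ C * (2 * n) ^ j := mul_le_mul_of_nonneg_left h6 hC
    _ = C * 2 ^ j * (n : ℝ) ^ j := by rw [mul_pow]; ring
    _ ≤ C * 2 ^ j * (1 / (C * 2 ^ j + 1) * X) := by
        apply mul_le_mul_of_nonneg_left h5.le
        positivity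
    _ = (C * 2 ^ j / (C * 2 ^ j + 1)) * X := by ring
    _ ≤ 1 * X := by
        apply mul_le_mul_of_nonneg_right _ hX0.le
        rw [div_le_one (by positivity)]
        linarith
    _ = X := one_mul X

open Classical in
/-- **Set Cover on windows.** -/
theorem windows (ε : ℝ) (hε : 0 < ε) (A c : ℕ) : ∃ (k : ℕ) (γ : ℝ) (M₀ : ℕ → ℕ), 0 < γ ∧
    ∀ᶠ n : ℕ in atTop, (n ≤ M₀ n ∧ M₀ n ≤ 4 ^ n) ∧ ∀ M W a : ℕ, M₀ n ≤ W → a + M₀ n ≤ M → M ≤ M₀ n ^ c →
      ∀ (Ω : Type) [Fintype Ω] (μ : Ω → ℝ), (∀ r, 0 ≤ μ r) → ∑ r, μ r = 1 →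
        ∀ C : Ω → Circuit (M * n), (∀ r, ((C r).nots : ℝ) ≤ γ * n ∧
          ((C r).size : ℝ) ≤ 2 ^ ((1 - ε) * n) * (M : ℝ) ^ A) →
          ∃ x : Fin (M * n) → Bool, a ≤ ones x ∧ ones x < a + W ∧
            ∑ r ∈ Finset.univ.filter (fun r => ((C r).eval x = true ↔ Cover k x)), μ r <
              1 / 2 + 2 ^ (-(γ * n)) := by
  obtain ⟨k, δ, γ', hδ0, hδ1, hγ', H⟩ :=
    Pool.Agent.Results.MP_8fffab_lc.FewNonMonotoneGates.result (ε / 2) (by linarith) (c * A)
  refine ⟨k, γ' / 2, fun n => Fintype.card (Small δ (n - 1)) * n + 1, by linarith, ?_⟩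
  obtain ⟨n₁, h₁⟩ := eventually_atTop.1 H
  obtain ⟨n₂, h₂⟩ := eventually_atTop.1 (ev_poly (2 * 2 ^ (c * A)) (c * A)
    (show (0 : ℝ) < ε / 2 by linarith))
  filter_upwards [eventually_ge_atTop (n₁ + n₂ + 2)] with n' hn'
  obtain ⟨n, rfl⟩ : ∃ n, n' = n + 1 := ⟨n' - 1, by omega⟩
  rw [Nat.add_sub_cancel]
  obtain ⟨N, hN⟩ : ∃ N, N = Fintype.card (Small δ n) := ⟨_, rfl⟩
  have hNpos : 1 ≤ N := by
    rw [hN]
    exact Fintype.card_pos_iff.2 ⟨⟨∅, by simp⟩⟩
  have hnN : n + 1 ≤ N * (n + 1) := Nat.le_mul_of_pos_left _ hNpos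
  rw [← hN]
  have hN2 : N ≤ 2 ^ n := by
    rw [hN]
    refine (Fintype.card_subtype_le _).trans ?_
    simp
  have hN4 : N * (n + 1) + 1 ≤ 4 ^ (n + 1) := by
    have h1 : n + 1 ≤ 2 ^ n := Nat.lt_two_pow_self
    have h2 : N * (n + 1) ≤ 2 ^ n * 2 ^ n := Nat.mul_le_mul hN2 h1
    have h3 : 2 ^ n * 2 ^ n = 4 ^ n := by
      rw [← mul_pow, show 2 * 2 = 4 from rfl]
    have h4 : 1 ≤ 4 ^ n := Nat.one_le_pow _ _ (by norm_num)
    rw [pow_succ]
    omega
  refine ⟨⟨by omega, hN4⟩, fun M W a hW ha hM Ω _ μ hμ hμ1 C hC => ?_⟩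
  obtain ⟨e, -⟩ : ∃ e : Small δ n ≃ Fin N, True := ⟨Fintype.equivFinOfCardEq hN.symm, trivial⟩
  have hNM : N ≤ N * (n + 1) := Nat.le_mul_of_pos_right _ (Nat.succ_pos n)
  have hnpos : (1 : ℝ) ≤ n := by
    have : 1 ≤ n := by omega
    exact_mod_cast this
  have hN1 : (1 : ℝ) ≤ N := by exact_mod_cast hNpos
  obtain ⟨y, hy⟩ := (h₁ n (by omega)).2 Ω μ hμ hμ1 (fun r => (C r).size)
    (fun r => build (sub e a) (C r) (C r).size) (fun r => outOf (sub e a) (C r))
    (fun r => by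
      rw [build_prod]
      push_cast
      rw [← Real.rpow_natCast]
      apply Real.rpow_le_rpow_of_exponent_le (by norm_num)
      have := (hC r).1
      push_cast at this
      nlinarith)
    (fun r => by
      rw [build_size, ← hN]
      refine (hC r).2.trans ?_
      have e1 : (M : ℝ) ^ A ≤ (2 ^ (c * A) * ((n : ℝ) + 1) ^ (c * A)) * (N : ℝ) ^ (c * A) := by
        have e2 : M ≤ (2 * (n + 1) * N) ^ c := by
          refine hM.trans (Nat.pow_le_pow_left ?_ c)
          have : 2 * (n + 1) * N = N * (n + 1) + N * (n + 1) := by ring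
          omega
        have e3 : (M : ℝ) ≤ (2 * ((n : ℝ) + 1) * N) ^ c := by exact_mod_cast e2
        calc (M : ℝ) ^ A ≤ ((2 * ((n : ℝ) + 1) * N) ^ c) ^ A :=
              pow_le_pow_left₀ (Nat.cast_nonneg _) e3 A
          _ = (2 ^ (c * A) * ((n : ℝ) + 1) ^ (c * A)) * (N : ℝ) ^ (c * A) := by
              rw [← pow_mul, mul_pow, mul_pow]
      have e4 := h₂ n (by omega)
      push_cast at e4
      have e5 : (2 : ℝ) ^ ((1 - ε) * ((n + 1 : ℕ) : ℝ)) ≤ 2 * 2 ^ ((1 - ε) * n) := by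
        have e6 : (2 : ℝ) * 2 ^ ((1 - ε) * (n : ℝ)) = 2 ^ (1 + (1 - ε) * n) := by
          rw [Real.rpow_add (by norm_num), Real.rpow_one]
        rw [e6]
        apply Real.rpow_le_rpow_of_exponent_le (by norm_num)
        push_cast
        nlinarith
      have e7 : (2 : ℝ) ^ ((1 - ε / 2) * n) = 2 ^ ((1 - ε) * n) * 2 ^ (ε / 2 * n) := by
        rw [← Real.rpow_add (by norm_num)]
        congr 1
        ring
      rw [e7]
      calc (2 : ℝ) ^ ((1 - ε) * ((n + 1 : ℕ) : ℝ)) * (M : ℝ) ^ A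
          ≤ (2 * 2 ^ ((1 - ε) * (n : ℝ))) * ((2 ^ (c * A) * ((n : ℝ) + 1) ^ (c * A)) *
              (N : ℝ) ^ (c * A)) := by gcongr
        _ = 2 ^ ((1 - ε) * (n : ℝ)) * (2 * 2 ^ (c * A) * ((n : ℝ) + 1) ^ (c * A)) *
              (N : ℝ) ^ (c * A) := by ring
        _ ≤ 2 ^ ((1 - ε) * (n : ℝ)) * 2 ^ (ε / 2 * n) * (N : ℝ) ^ (c * A) := by gcongr)
  obtain ⟨b1, b2⟩ := ones_bounds (M := M) (a := a) e (by omega) y
  refine ⟨sx (sub e a) y, b1, by omega, lt_of_le_of_lt (le_of_eq ?_) (lt_of_lt_of_le hy ?_)⟩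
  · apply Finset.sum_congr ?_ (fun _ _ => rfl)
    apply Finset.filter_congr
    intro r _
    rw [outOf_eval, cover_iff e (by omega) (by omega) k y]
  · have : (2 : ℝ) ^ (-(γ' * n)) ≤ 2 ^ (-(γ' / 2 * ((n + 1 : ℕ) : ℝ))) := by
      apply Real.rpow_le_rpow_of_exponent_le (by norm_num)
      push_cast
      nlinarith
    linarith

theorem not_fastOn (t W : ℕ → ℕ → ℕ) (hW : ∃ c : ℕ, ∀ n M, M ≤ W n M ^ c)
    (ht : ∀ b : ℕ, ∀ᶠ n : ℕ in atTop, ∀ M, M ≤ 2 ^ (b * n) → b * t n M ≤ n) :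
    ¬ FastOn t W := by
  classical
  rintro ⟨ε, A, hε, hε1, h⟩
  obtain ⟨c, hc⟩ := hW
  obtain ⟨k, γ, M₀, hγ, H⟩ := windows (ε / 2) (by linarith) A (c + 1)
  obtain ⟨b, hb1, hb2⟩ : ∃ b : ℕ, 1 / γ ≤ b ∧ 2 * (c + 1) ≤ b := by
    refine ⟨⌈1 / γ⌉₊ + 2 * (c + 1), ?_, by omega⟩
    push_cast
    have := Nat.le_ceil (1 / γ)
    have h1 : (0 : ℝ) ≤ 2 * ((c : ℝ) + 1) := by positivity
    linarith
  have hall := (H.and (ht b)).and ((ev_poly (3 ^ A) A (show (0 : ℝ) < ε / 2 by linarith)).and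
    (eventually_ge_atTop (b + 2)))
  obtain ⟨n, ⟨⟨⟨hn1, hn2⟩, hn3⟩, hn4⟩, hn5, hn6⟩ := hall.exists
  obtain ⟨m, hm⟩ : ∃ m, m = M₀ n := ⟨_, rfl⟩
  rw [← hm] at hn1 hn2 hn3
  have hm2 : 2 ≤ m := by omega
  obtain ⟨M, hM⟩ : ∃ M, M = m ^ (c + 1) := ⟨_, rfl⟩
  have hWm : m ≤ W n M := by
    by_contra hcon
    push Not at hcon
    have h1 : M ≤ m ^ c := (hc n M).trans (Nat.pow_le_pow_left hcon.le c)
    have h2 : m ^ c < m ^ (c + 1) := Nat.pow_lt_pow_right (by omega) (Nat.lt_succ_self c)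
    omega
  have hmM : m ≤ M := by
    rw [hM]
    exact Nat.le_self_pow (by omega) m
  obtain ⟨C, c1, c2, c3⟩ := h n M k 0
  have hM2 : M ≤ 2 ^ (b * n) := by
    calc M = m ^ (c + 1) := hM
      _ ≤ (4 ^ n) ^ (c + 1) := Nat.pow_le_pow_left hn2 _
      _ = 2 ^ (2 * (c + 1) * n) := by
          rw [show (4 : ℕ) = 2 ^ 2 by norm_num, ← pow_mul, ← pow_mul]
          congr 1
          ring
      _ ≤ 2 ^ (b * n) := Nat.pow_le_pow_right (by norm_num) (Nat.mul_le_mul_right _ hb2)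
  have hb0 : (0 : ℝ) < b := lt_of_lt_of_le (by positivity) hb1
  have hγb : 1 ≤ γ * b := by
    rw [div_le_iff₀ hγ] at hb1
    linarith
  have hnots : ((C.nots : ℕ) : ℝ) ≤ γ * n := by
    have h1 : b * C.nots ≤ n := (Nat.mul_le_mul_left _ c1).trans (hn4 M hM2)
    have h2 : (b : ℝ) * C.nots ≤ n := by exact_mod_cast h1
    have h3 : (0 : ℝ) ≤ C.nots := Nat.cast_nonneg _
    calc (C.nots : ℝ) ≤ (γ * b) * C.nots := by nlinarith
      _ = γ * (b * C.nots) := by ring
      _ ≤ γ * n := mul_le_mul_of_nonneg_left h2 hγ.le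
  have hsize : (C.size : ℝ) ≤ 2 ^ ((1 - ε / 2) * n) * (M : ℝ) ^ A := by
    refine c2.trans ?_
    unfold bound
    have hM1 : (1 : ℝ) ≤ M := by
      have : 1 ≤ M := by omega
      exact_mod_cast this
    have hnn : (0 : ℝ) ≤ n := Nat.cast_nonneg _
    have h1 : ((M + n + 2 : ℕ) : ℝ) ≤ M * (3 * (n + 1)) := by
      push_cast
      nlinarith
    push_cast at hn5
    have h2 : (2 : ℝ) ^ ((1 - ε / 2) * n) = 2 ^ ((1 - ε) * n) * 2 ^ (ε / 2 * n) := by
      rw [← Real.rpow_add (by norm_num)]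
      congr 1
      ring
    rw [h2]
    calc (2 : ℝ) ^ ((1 - ε) * n) * ((M + n + 2 : ℕ) : ℝ) ^ A
        ≤ 2 ^ ((1 - ε) * n) * (M * (3 * (n + 1))) ^ A := by gcongr
      _ = 2 ^ ((1 - ε) * n) * (3 ^ A * (n + 1) ^ A) * M ^ A := by
          rw [mul_pow, mul_pow]
          ring
      _ ≤ 2 ^ ((1 - ε) * n) * 2 ^ (ε / 2 * n) * M ^ A := by gcongr
  obtain ⟨x, x1, x2, x3⟩ := hn3 M (W n M) 0 hWm (by omega) hM.le Unit (fun _ => 1)
    (fun _ => zero_le_one) (by simp) (fun _ => C) (fun _ => ⟨hnots, hsize⟩)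
  have hx := c3 x x1 x2
  have hfil : (Finset.univ.filter (fun _ : Unit => (C.eval x = true ↔ Cover k x))) =
      Finset.univ := by
    rw [Finset.filter_true_of_mem]
    intro _ _
    exact hx
  rw [hfil] at x3
  have h1 : (1 : ℝ) ≤ γ * n := by
    have : (b : ℝ) ≤ n := by
      have : b ≤ n := by omega
      exact_mod_cast this
    nlinarith
  have h2 : (2 : ℝ) ^ (-(γ * n)) ≤ 2 ^ (-(1 : ℝ)) :=
    Real.rpow_le_rpow_of_exponent_le (by norm_num) (by linarith)
  have h3 : (2 : ℝ) ^ (-(1 : ℝ)) = 1 / 2 := by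
    rw [Real.rpow_neg (by norm_num), Real.rpow_one]
    norm_num
  rw [h3] at h2
  simp only [Finset.univ_unique, Finset.sum_const, Finset.card_singleton, one_smul] at x3
  linarith

end Pool.Agent.W953.CV
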